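import Mathlib
import Pool.Agent.Helper94.HS.Det

/-!
Amalgamated free products over a finite group of (flexibly) Hilbert-Schmidt stable groups are
flexibly Hilbert-Schmidt stable, if both factors are hyperlinear, or more generally if both factors
detect the same elements of the finite group in finite quotients.
-/

namespace Pool.Agent.Results.MP_0ea811_al.FlexAmalgamHS

open Pool.Agent.Helper94 Pool.Agent.Helper94.HS

theorem result {G₁ G₂ H : Type} [Group G₁] [Group G₂] [Group H] [Finite H]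
    (i₁ : H →* G₁) (i₂ : H →* G₂)
    (h₁ : (Group.FG G₁ ∧ HSStable G₁) ∨ FlexHSStable G₁)
    (h₂ : (Group.FG G₂ ∧ HSStable G₂) ∨ FlexHSStable G₂)
    (hres : (Function.Injective i₁ ∧ Function.Injective i₂ ∧ IsHyperlinear G₁ ∧
      IsHyperlinear G₂) ∨ ∀ h : H, InRes G₁ (i₁ h) ↔ InRes G₂ (i₂ h)) :
    FlexHSStable (Amalgam i₁ i₂) := by
  have k₁ : FlexHSStable G₁ := by
    rcases h₁ with ⟨hf, hs⟩ | h
    · exact flexHSStable_of_hsStable hf hs
    · exact h
  have k₂ : FlexHSStable G₂ := by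
    rcases h₂ with ⟨hf, hs⟩ | h
    · exact flexHSStable_of_hsStable hf hs
    · exact h
  refine flexHSStable_amalgam i₁ i₂ ?_ k₁ k₂
  rcases hres with ⟨n₁, n₂, s₁, s₂⟩ | h
  · intro h
    by_cases hh : h = 1
    · subst hh
      rw [map_one, map_one]
      exact ⟨fun _ Q _ _ f => map_one f, fun _ Q _ _ f => map_one f⟩
    · have c₁ := not_inRes_of_hyperlinear s₁ k₁ (i₁ h) ((map_ne_one_iff i₁ n₁).2 hh)
      have c₂ := not_inRes_of_hyperlinear s₂ k₂ (i₂ h) ((map_ne_one_iff i₂ n₂).2 hh)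
      exact ⟨fun h' => absurd h' c₁, fun h' => absurd h' c₂⟩
  · exact h

end Pool.Agent.Results.MP_0ea811_al.FlexAmalgamHS
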