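import Mathlib
import Pool.Agent.Helper94.StabDefs
import Pool.Agent.Helper94.SoficDet

/-!
Amalgamated free products over a finite group of (flexibly) permutation stable groups are flexibly
permutation stable, if both factors are sofic, or more generally if both factors detect the same
elements of the finite group in finite quotients.
-/

namespace Pool.Agent.Results.MP_0ea811_al.FlexAmalgamPerm

open Pool.Agent.Helper94

theorem result {G₁ G₂ H : Type} [Group G₁] [Group G₂] [Group H] [Finite H]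
    (i₁ : H →* G₁) (i₂ : H →* G₂)
    (h₁ : (Group.FG G₁ ∧ PStable G₁) ∨ FlexPStable G₁)
    (h₂ : (Group.FG G₂ ∧ PStable G₂) ∨ FlexPStable G₂)
    (hres : (Function.Injective i₁ ∧ Function.Injective i₂ ∧ IsSofic G₁ ∧ IsSofic G₂) ∨
      ∀ h : H, InRes G₁ (i₁ h) ↔ InRes G₂ (i₂ h)) :
    FlexPStable (Amalgam i₁ i₂) := by
  have k₁ : FlexPStable G₁ := by
    rcases h₁ with ⟨hf, hs⟩ | h
    · exact flexPStable_of_pStable hf hs
    · exact h
  have k₂ : FlexPStable G₂ := by
    rcases h₂ with ⟨hf, hs⟩ | h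
    · exact flexPStable_of_pStable hf hs
    · exact h
  refine flexPStable_amalgam i₁ i₂ ?_ k₁ k₂
  rcases hres with ⟨n₁, n₂, s₁, s₂⟩ | h
  · intro h
    by_cases hh : h = 1
    · subst hh
      rw [map_one, map_one]
      exact ⟨fun _ Q _ _ f => map_one f, fun _ Q _ _ f => map_one f⟩
    · have c₁ := not_inRes_of_sofic s₁ k₁ (i₁ h) ((map_ne_one_iff i₁ n₁).2 hh)
      have c₂ := not_inRes_of_sofic s₂ k₂ (i₂ h) ((map_ne_one_iff i₂ n₂).2 hh)
      exact ⟨fun h' => absurd h' c₁, fun h' => absurd h' c₂⟩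
  · exact h

end Pool.Agent.Results.MP_0ea811_al.FlexAmalgamPerm
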