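import Mathlib
import Pool.Agent.Helper94.StabDefs
import Pool.Agent.Helper94.TreeDefs
import Pool.Agent.Helper94.TreeGood

/-!
Fundamental groups of finite trees of groups with finite edge groups are stable in permutations if
the vertex groups are finitely generated, amenable and stable in permutations. In particular this
holds for `G₁ *_H G₂` with `H` finite and `G₁`, `G₂` amenable and stable in permutations.
-/

namespace Pool.Agent.Results.MP_0ea811_al.StrictAmenableTrees

open Pool.Agent.Helper94

theorem result {G : Type} [Group G] {𝓕 : Set (Subgroup G)} (h : TreeProduct G 𝓕) : PStable G :=
  pStable_of_treeProduct h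

end Pool.Agent.Results.MP_0ea811_al.StrictAmenableTrees
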