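import Mathlib
import Pool.Agent.Helper94.HSDefs
import Pool.Agent.Helper94.TreeDefs
import Pool.Agent.Helper94.TreeHSDefs
import Pool.Agent.Helper94.HS.TreeHS

/-!
Fundamental groups of finite trees of groups with finite edge groups are stable in Hilbert-Schmidt
norm if the vertex groups are finitely generated, amenable and stable in Hilbert-Schmidt norm. In
particular this holds for `G₁ *_H G₂` with `H` finite and `G₁`, `G₂` amenable and stable.
-/

namespace Pool.Agent.Results.MP_0ea811_al.StrictAmenableTreesHS

open Pool.Agent.Helper94

theorem result {G : Type} [Group G] {𝓕 : Set (Subgroup G)} (h : TreeProductHS G 𝓕) :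
    HSStable G :=
  HS.hsStable_of_treeProductHS h

end Pool.Agent.Results.MP_0ea811_al.StrictAmenableTreesHS
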